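import Pool.Agent.H87.CKLogic.Defs

namespace Pool.Agent.H87.CKLogic

open Form

/-! ### Logics and derivations from hypotheses -/

/-- `L` contains intuitionistic logic and `K` for box, and is closed under the rules. -/
structure IsLogic (L : Set Form) : Prop where
  ipl : ∀ φ, IPL φ → φ ∈ L
  mp : ∀ φ ψ, imp φ ψ ∈ L → φ ∈ L → ψ ∈ L
  nec : ∀ φ, φ ∈ L → box φ ∈ L
  subst : ∀ φ σ, φ ∈ L → φ.subst σ ∈ L
  kbox : KBox ∈ L

theorem subset_oplus (L A : Set Form) : L ⊆ oplus L A := fun _ h => Ext.base h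

theorem subst_var (φ : Form) : φ.subst var = φ := by
  induction φ <;> simp_all [Form.subst]

theorem mem_oplus_right {L A : Set Form} {φ : Form} (h : φ ∈ A) : φ ∈ oplus L A := by
  have := Ext.inst (L := L) var h
  rwa [subst_var] at this

theorem isLogic_CKBox : IsLogic CKBox where
  ipl φ h := Ext.base h
  mp _ _ h1 h2 := Ext.mp h1 h2
  nec _ h := Ext.nec h
  subst _ σ h := Ext.subst σ h
  kbox := mem_oplus_right rfl

theorem IsLogic.oplus {L : Set Form} (hL : IsLogic L) (A : Set Form) : IsLogic (oplus L A) where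
  ipl φ h := Ext.base (hL.ipl φ h)
  mp _ _ h1 h2 := Ext.mp h1 h2
  nec _ h := Ext.nec h
  subst _ σ h := Ext.subst σ h
  kbox := Ext.base hL.kbox

theorem isLogic_CK : IsLogic CK := isLogic_CKBox.oplus _
theorem isLogic_L1 : IsLogic L1 := (isLogic_CK.oplus _).oplus _
theorem isLogic_L2 : IsLogic L2 := isLogic_L1.oplus _

theorem CKBox_subset_L1 : CKBox ⊆ L1 := fun _ h => Ext.base (Ext.base (Ext.base h))
theorem L1_subset_L2 : L1 ⊆ L2 := subset_oplus _ _

theorem oplus_subset {L A T : Set Form} (hT : IsLogic T) (hL : L ⊆ T) (hA : A ⊆ T) :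
    oplus L A ⊆ T := by
  intro φ h
  induction h with
  | base h => exact hL h
  | inst σ h => exact hT.subst _ _ (hA h)
  | mp _ _ ih1 ih2 => exact hT.mp _ _ ih1 ih2
  | nec _ ih => exact hT.nec _ ih
  | subst σ _ ih => exact hT.subst _ _ ih

/-- Derivability from hypotheses `Γ` over the logic `L` (modus ponens only). -/
inductive Der (L Γ : Set Form) : Form → Prop
  | thm {φ : Form} : φ ∈ L → Der L Γ φ
  | hyp {φ : Form} : φ ∈ Γ → Der L Γ φ
  | mp {φ ψ : Form} : Der L Γ (imp φ ψ) → Der L Γ φ → Der L Γ ψ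

namespace Der

variable {L Γ : Set Form}

theorem mono {Δ : Set Form} (h : Γ ⊆ Δ) {φ : Form} (d : Der L Γ φ) : Der L Δ φ := by
  induction d with
  | thm h => exact thm h
  | hyp h' => exact hyp (h h')
  | mp _ _ ih1 ih2 => exact mp ih1 ih2

theorem imp_self (hL : IsLogic L) (φ : Form) : imp φ φ ∈ L := by
  apply hL.mp _ _ _ (hL.ipl _ (IPL.k φ φ))
  exact hL.mp _ _ (hL.ipl _ (IPL.s φ (imp φ φ) φ)) (hL.ipl _ (IPL.k φ (imp φ φ)))

theorem ded (hL : IsLogic L) {φ ψ : Form} (d : Der L (insert φ Γ) ψ) : Der L Γ (imp φ ψ) := by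
  induction d with
  | thm h => exact mp (thm (hL.ipl _ (IPL.k _ _))) (thm h)
  | hyp h =>
    rcases h with h | h
    · subst h; exact thm (imp_self hL _)
    · exact mp (thm (hL.ipl _ (IPL.k _ _))) (hyp h)
  | mp _ _ ih1 ih2 => exact mp (mp (thm (hL.ipl _ (IPL.s _ _ _))) ih1) ih2

theorem toThm (hL : IsLogic L) {φ : Form} (d : Der L ∅ φ) : φ ∈ L := by
  induction d with
  | thm h => exact h
  | hyp h => exact absurd h (Set.notMem_empty _)
  | mp _ _ ih1 ih2 => exact hL.mp _ _ ih1 ih2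

theorem intro1 (hL : IsLogic L) {φ ψ : Form} (d : Der L {φ} ψ) : imp φ ψ ∈ L := by
  apply toThm hL
  apply ded hL
  simpa using d

theorem andE1 (hL : IsLogic L) {φ ψ : Form} (d : Der L Γ (and φ ψ)) : Der L Γ φ :=
  mp (thm (hL.ipl _ (IPL.andL _ _))) d

theorem andE2 (hL : IsLogic L) {φ ψ : Form} (d : Der L Γ (and φ ψ)) : Der L Γ ψ :=
  mp (thm (hL.ipl _ (IPL.andR _ _))) d

theorem orI1 (hL : IsLogic L) {φ ψ : Form} (d : Der L Γ φ) : Der L Γ (or φ ψ) :=
  mp (thm (hL.ipl _ (IPL.orL _ _))) d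

theorem orI2 (hL : IsLogic L) {φ ψ : Form} (d : Der L Γ ψ) : Der L Γ (or φ ψ) :=
  mp (thm (hL.ipl _ (IPL.orR _ _))) d

theorem orE (hL : IsLogic L) {φ ψ χ : Form} (d : Der L Γ (or φ ψ))
    (d1 : Der L (insert φ Γ) χ) (d2 : Der L (insert ψ Γ) χ) : Der L Γ χ :=
  mp (mp (mp (thm (hL.ipl _ (IPL.orE _ _ _))) (ded hL d1)) (ded hL d2)) d

theorem botE (hL : IsLogic L) {φ : Form} (d : Der L Γ bot) : Der L Γ φ :=
  mp (thm (hL.ipl _ (IPL.botE _))) d

theorem kbox (hL : IsLogic L) {φ ψ : Form} (d1 : Der L Γ (box (imp φ ψ)))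
    (d2 : Der L Γ (box φ)) : Der L Γ (box ψ) := by
  have h := hL.subst KBox (fun n => if n = 0 then φ else ψ) hL.kbox
  simp only [KBox, Form.subst] at h
  exact mp (mp (thm (by simpa using h)) d1) d2

/-- If `imp φ ψ` is a theorem, `box φ` gives `box ψ`. -/
theorem boxMono (hL : IsLogic L) {φ ψ : Form} (h : imp φ ψ ∈ L) (d : Der L Γ (box φ)) :
    Der L Γ (box ψ) :=
  kbox hL (thm (hL.nec _ h)) d

end Der

/-! ### The diamond-free axiom of `L₁` -/

/-- The formula `□(p ∨ q) → ((¬□¬p → □q) → □q)`. -/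
def Chi : Form :=
  imp (box (or (var 0) (var 1)))
    (imp (imp (neg (box (neg (var 0)))) (box (var 1))) (box (var 1)))

/-- Translation replacing diamond by the dual of box. -/
def tr : Form → Form
  | .var n => .var n
  | .bot => .bot
  | .and φ ψ => .and (tr φ) (tr ψ)
  | .or φ ψ => .or (tr φ) (tr ψ)
  | .imp φ ψ => .imp (tr φ) (tr ψ)
  | .box φ => .box (tr φ)
  | .dia φ => neg (box (neg (tr φ)))

theorem tr_subst (σ : ℕ → Form) (φ : Form) :
    tr (φ.subst σ) = (tr φ).subst (fun n => tr (σ n)) := by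
  induction φ <;> simp_all [Form.subst, tr, neg]

theorem tr_diaFree {φ : Form} (h : φ.DiaFree) : tr φ = φ := by
  induction φ with
  | var n => rfl
  | bot => rfl
  | and φ ψ ih1 ih2 => simp [tr, ih1 h.1, ih2 h.2]
  | or φ ψ ih1 ih2 => simp [tr, ih1 h.1, ih2 h.2]
  | imp φ ψ ih1 ih2 => simp [tr, ih1 h.1, ih2 h.2]
  | box φ ih => simp [tr, ih h]
  | dia φ ih => exact absurd h id

theorem tr_IPL {φ : Form} (h : IPL φ) : IPL (tr φ) := by
  induction h with
  | k φ ψ => exact IPL.k _ _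
  | s φ ψ χ => exact IPL.s _ _ _
  | andL φ ψ => exact IPL.andL _ _
  | andR φ ψ => exact IPL.andR _ _
  | andI φ ψ => exact IPL.andI _ _
  | orL φ ψ => exact IPL.orL _ _
  | orR φ ψ => exact IPL.orR _ _
  | orE φ ψ χ => exact IPL.orE _ _ _
  | botE φ => exact IPL.botE _
  | mp _ _ ih1 ih2 => exact IPL.mp ih1 ih2

theorem tr_oplus {L A T : Set Form} (hT : IsLogic T) (hL : ∀ φ ∈ L, tr φ ∈ T)
    (hA : ∀ φ ∈ A, tr φ ∈ T) : ∀ φ ∈ oplus L A, tr φ ∈ T := by
  intro φ h
  induction h with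
  | base h => exact hL _ h
  | inst σ h => rw [tr_subst]; exact hT.subst _ _ (hA _ h)
  | mp _ _ ih1 ih2 => exact hT.mp _ _ ih1 ih2
  | nec _ ih => exact hT.nec _ ih
  | subst σ _ ih => rw [tr_subst]; exact hT.subst _ _ ih

theorem tr_KDia_mem {T : Set Form} (hT : IsLogic T) : tr KDia ∈ T := by
  have hthm : imp (imp (var 0) (var 1)) (imp (neg (var 1)) (neg (var 0))) ∈ T := by
    apply Der.intro1 hT
    apply Der.ded hT
    apply Der.ded hT
    exact Der.mp (φ := var 1) (Der.hyp (by simp [neg])) (Der.mp (φ := var 0) (Der.hyp (by simp))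
      (Der.hyp (by simp)))
  show imp (box (imp (var 0) (var 1)))
    (imp (neg (box (neg (var 0)))) (neg (box (neg (var 1))))) ∈ T
  apply Der.intro1 hT
  apply Der.ded hT
  apply Der.ded hT
  have h1 : Der T (insert (box (neg (var 1))) (insert (neg (box (neg (var 0))))
      {box (imp (var 0) (var 1))})) (box (imp (neg (var 1)) (neg (var 0)))) :=
    Der.boxMono hT hthm (Der.hyp (by simp))
  have h2 := Der.kbox hT h1 (Der.hyp (by simp))
  exact Der.mp (φ := box (neg (var 0))) (Der.hyp (by simp [neg])) h2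

theorem tr_NDia_mem {T : Set Form} (hT : IsLogic T) : tr NDia ∈ T := by
  show imp (neg (box (neg bot))) bot ∈ T
  apply Der.intro1 hT
  apply Der.mp (φ := box (neg bot)) (Der.hyp (by simp [neg]))
  exact Der.thm (hT.nec _ (Der.imp_self hT bot))

/-- Every theorem of `L₁` translates to a theorem of `CK_□ ⊕ χ`. -/
theorem tr_L1 : ∀ φ ∈ L1, tr φ ∈ oplus CKBox {Chi} := by
  have hT : IsLogic (oplus CKBox {Chi}) := isLogic_CKBox.oplus _
  apply tr_oplus hT
  · apply tr_oplus hT
    · apply tr_oplus hT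
      · apply tr_oplus hT
        · intro φ h
          exact hT.ipl _ (tr_IPL h)
        · rintro φ rfl
          exact hT.kbox
      · rintro φ rfl
        exact tr_KDia_mem hT
    · rintro φ rfl
      exact tr_NDia_mem hT
  · rintro φ rfl
    exact mem_oplus_right rfl

/-! ### Derivations in `L₁` and `L₂` -/

theorem KDia_mem_CK : KDia ∈ CK := mem_oplus_right rfl
theorem KDia_mem_L1 : KDia ∈ L1 := Ext.base (Ext.base KDia_mem_CK)
theorem NDia_mem_L1 : NDia ∈ L1 := Ext.base (mem_oplus_right rfl)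
theorem WCD_mem_L1 : WCD ∈ L1 := mem_oplus_right rfl
theorem CDia_mem_L2 : CDia ∈ L2 := mem_oplus_right rfl

theorem Der.kdia {L Γ : Set Form} (hL : IsLogic L) (hK : KDia ∈ L) {φ ψ : Form}
    (d1 : Der L Γ (box (imp φ ψ))) (d2 : Der L Γ (dia φ)) : Der L Γ (dia ψ) := by
  have h := hL.subst KDia (fun n => if n = 0 then φ else ψ) hK
  simp only [KDia, Form.subst] at h
  exact mp (mp (thm (by simpa using h)) d1) d2

theorem Der.wcd {L Γ : Set Form} (hL : IsLogic L) (hK : WCD ∈ L) {φ ψ : Form}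
    (d1 : Der L Γ (box (or φ ψ))) (d2 : Der L Γ (imp (dia φ) (box ψ))) : Der L Γ (box ψ) := by
  have h := hL.subst WCD (fun n => if n = 0 then φ else ψ) hK
  simp only [WCD, Form.subst] at h
  exact mp (mp (thm (by simpa using h)) d1) d2

theorem Der.cdia {L Γ : Set Form} (hL : IsLogic L) (hK : CDia ∈ L) {φ ψ : Form}
    (d : Der L Γ (dia (or φ ψ))) : Der L Γ (or (dia φ) (dia ψ)) := by
  have h := hL.subst CDia (fun n => if n = 0 then φ else ψ) hK
  simp only [CDia, Form.subst] at h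
  exact mp (thm (by simpa using h)) d

/-- `◇φ` gives `¬□¬φ`. -/
theorem Der.diaToDual {L Γ : Set Form} (hL : IsLogic L) (hK : KDia ∈ L) (hN : NDia ∈ L)
    {φ : Form} (d : Der L Γ (dia φ)) : Der L Γ (neg (box (neg φ))) := by
  apply ded hL
  have h1 : Der L (insert (box (neg φ)) Γ) (dia bot) :=
    kdia hL hK (φ := φ) (hyp (by simp [neg])) (mono (Set.subset_insert _ _) d)
  exact mp (thm hN) h1

theorem Chi_mem_L1 : Chi ∈ L1 := by
  have hL := isLogic_L1
  apply Der.intro1 hL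
  apply Der.ded hL
  apply Der.wcd hL WCD_mem_L1 (φ := var 0) (Der.hyp (by simp))
  apply Der.ded hL
  apply Der.mp (φ := neg (box (neg (var 0)))) (Der.hyp (by simp))
  exact Der.diaToDual hL KDia_mem_L1 NDia_mem_L1 (Der.hyp (by simp))

/-- The diamond-free fragment of `L₁` is that of `CK_□ ⊕ χ`. -/
theorem L1_fragment (φ : Form) (h : φ.DiaFree) : φ ∈ L1 ↔ φ ∈ oplus CKBox {Chi} := by
  constructor
  · intro h1
    have := tr_L1 φ h1
    rwa [tr_diaFree h] at this
  · intro h1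
    exact oplus_subset isLogic_L1 CKBox_subset_L1 (by rintro _ rfl; exact Chi_mem_L1) h1

/-! ### The formulas `θ_k` -/

/-- Disjunction of a list of formulas. -/
def bigOr : List Form → Form
  | [] => bot
  | φ :: l => or φ (bigOr l)

/-- `□(p → ⋁ bᵢ) → ⋁ ¬□¬bᵢ`, with `p` the variable `0`, and `bᵢ` the variable `i + 2`. -/
def Mform (k : ℕ) : Form :=
  imp (box (imp (var 0) (bigOr ((List.range k).map fun i => var (i + 2)))))
    (bigOr ((List.range k).map fun i => neg (box (neg (var (i + 2))))))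

/-- `□(p ∨ q) → ((M_k → □q) → □q)`. -/
def Theta (k : ℕ) : Form :=
  imp (box (or (var 0) (var 1))) (imp (imp (Mform k) (box (var 1))) (box (var 1)))

theorem bigOr_diaFree (l : List Form) (h : ∀ φ ∈ l, φ.DiaFree) : (bigOr l).DiaFree := by
  induction l with
  | nil => trivial
  | cons a l ih => exact ⟨h a (by simp), ih fun φ hφ => h φ (by simp [hφ])⟩

theorem Theta_diaFree (k : ℕ) : (Theta k).DiaFree := by
  refine ⟨⟨trivial, trivial⟩, ⟨⟨⟨trivial, ?_⟩, ?_⟩, trivial⟩, trivial⟩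
  · apply bigOr_diaFree
    intro φ hφ
    simp only [List.mem_map] at hφ
    obtain ⟨i, _, rfl⟩ := hφ
    trivial
  · apply bigOr_diaFree
    intro φ hφ
    simp only [List.mem_map] at hφ
    obtain ⟨i, _, rfl⟩ := hφ
    exact ⟨⟨trivial, trivial⟩, trivial⟩

theorem Der.bigOr_dia {Γ : Set Form} (l : List Form) (d : Der L2 Γ (dia (bigOr l))) :
    Der L2 Γ (bigOr (l.map fun φ => neg (box (neg φ)))) := by
  have hL := isLogic_L2
  have hK : KDia ∈ L2 := L1_subset_L2 KDia_mem_L1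
  have hN : NDia ∈ L2 := L1_subset_L2 NDia_mem_L1
  induction l generalizing Γ with
  | nil => exact mp (thm hN) d
  | cons a l ih =>
    apply orE hL (cdia hL CDia_mem_L2 d)
    · exact orI1 hL (diaToDual hL hK hN (hyp (by simp)))
    · exact orI2 hL (ih (hyp (by simp)))

theorem Theta_mem_L2 (k : ℕ) : Theta k ∈ L2 := by
  have hL := isLogic_L2
  have hK : KDia ∈ L2 := L1_subset_L2 KDia_mem_L1
  apply Der.intro1 hL
  apply Der.ded hL
  apply Der.wcd hL (L1_subset_L2 WCD_mem_L1) (φ := var 0) (Der.hyp (by simp))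
  apply Der.ded hL
  apply Der.mp (φ := Mform k) (Der.hyp (by simp))
  apply Der.ded hL
  have h1 := Der.bigOr_dia ((List.range k).map fun i => var (i + 2))
    (Γ := insert (box (imp (var 0) (bigOr ((List.range k).map fun i => var (i + 2)))))
      (insert (dia (var 0)) (insert (imp (Mform k) (box (var 1)))
        {box (or (var 0) (var 1))})))
    (Der.kdia hL hK (φ := var 0) (Der.hyp (by simp)) (Der.hyp (by simp)))
  simpa [List.map_map, Function.comp_def] using h1

end Pool.Agent.H87.CKLogic
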