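import Mathlib

/-!
Definitions for the intuitionistic modal logics of problem `MP_1f55c7_lc`.
-/

namespace Pool.Agent.H87.CKLogic

/-- Formulas built from propositional variables and falsum with conjunction, disjunction,
implication, box and diamond. -/
inductive Form : Type
  | var : ℕ → Form
  | bot : Form
  | and : Form → Form → Form
  | or : Form → Form → Form
  | imp : Form → Form → Form
  | box : Form → Form
  | dia : Form → Form

namespace Form

/-- Negation: `φ` implies falsum. -/
def neg (φ : Form) : Form := imp φ bot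

/-- Simultaneous (uniform) substitution of formulas for the propositional variables. -/
def subst (σ : ℕ → Form) : Form → Form
  | var n => σ n
  | bot => bot
  | and φ ψ => and (subst σ φ) (subst σ ψ)
  | or φ ψ => or (subst σ φ) (subst σ ψ)
  | imp φ ψ => imp (subst σ φ) (subst σ ψ)
  | box φ => box (subst σ φ)
  | dia φ => dia (subst σ φ)

/-- A formula is diamond-free if it contains no diamond. -/
def DiaFree : Form → Prop
  | var _ => True
  | bot => True
  | and φ ψ => DiaFree φ ∧ DiaFree ψ
  | or φ ψ => DiaFree φ ∧ DiaFree ψ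
  | imp φ ψ => DiaFree φ ∧ DiaFree ψ
  | box φ => DiaFree φ
  | dia _ => False

end Form

open Form

/-- Intuitionistic propositional logic in the full language: the usual Hilbert axiom schemes
and modus ponens. -/
inductive IPL : Form → Prop
  | k (φ ψ : Form) : IPL (imp φ (imp ψ φ))
  | s (φ ψ χ : Form) : IPL (imp (imp φ (imp ψ χ)) (imp (imp φ ψ) (imp φ χ)))
  | andL (φ ψ : Form) : IPL (imp (and φ ψ) φ)
  | andR (φ ψ : Form) : IPL (imp (and φ ψ) ψ)
  | andI (φ ψ : Form) : IPL (imp φ (imp ψ (and φ ψ)))
  | orL (φ ψ : Form) : IPL (imp φ (or φ ψ))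
  | orR (φ ψ : Form) : IPL (imp ψ (or φ ψ))
  | orE (φ ψ χ : Form) : IPL (imp (imp φ χ) (imp (imp ψ χ) (imp (or φ ψ) χ)))
  | botE (φ : Form) : IPL (imp bot φ)
  | mp {φ ψ : Form} : IPL (imp φ ψ) → IPL φ → IPL ψ

/-- `Ext L A` is the least set of formulas containing `L` and all substitution instances of
members of `A`, closed under modus ponens, necessitation and uniform substitution. -/
inductive Ext (L A : Set Form) : Form → Prop
  | base {φ : Form} : φ ∈ L → Ext L A φ
  | inst {φ : Form} (σ : ℕ → Form) : φ ∈ A → Ext L A (φ.subst σ)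
  | mp {φ ψ : Form} : Ext L A (imp φ ψ) → Ext L A φ → Ext L A ψ
  | nec {φ : Form} : Ext L A φ → Ext L A (box φ)
  | subst {φ : Form} (σ : ℕ → Form) : Ext L A φ → Ext L A (φ.subst σ)

/-- The logic `L ⊕ A`, as a set of formulas. -/
def oplus (L A : Set Form) : Set Form := {φ | Ext L A φ}

/-- The axiom `K` for box: `□(p → q) → (□p → □q)`. -/
def KBox : Form := imp (box (imp (var 0) (var 1))) (imp (box (var 0)) (box (var 1)))

/-- The axiom `K` for diamond: `□(p → q) → (◇p → ◇q)`. -/
def KDia : Form := imp (box (imp (var 0) (var 1))) (imp (dia (var 0)) (dia (var 1)))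

/-- The axiom `N` for diamond: `◇⊥ → ⊥`. -/
def NDia : Form := imp (dia bot) bot

/-- The axiom `C` for diamond: `◇(p ∨ q) → ◇p ∨ ◇q`. -/
def CDia : Form := imp (dia (or (var 0) (var 1))) (or (dia (var 0)) (dia (var 1)))

/-- Weak constant domain: `□(p ∨ q) → ((◇p → □q) → □q)`. -/
def WCD : Form :=
  imp (box (or (var 0) (var 1))) (imp (imp (dia (var 0)) (box (var 1))) (box (var 1)))

/-- The logic `CK_□`: intuitionistic propositional logic plus the axiom `K` for box and
necessitation. -/
def CKBox : Set Form := oplus {φ | IPL φ} {KBox}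

/-- The logic `CK`: `CK_□` plus the axiom `K` for diamond. -/
def CK : Set Form := oplus CKBox {KDia}

/-- The logic `L₁ = CK ⊕ N_◇ ⊕ wCD`. -/
def L1 : Set Form := oplus (oplus CK {NDia}) {WCD}

/-- The logic `L₂ = L₁ ⊕ C_◇`. -/
def L2 : Set Form := oplus L1 {CDia}

/-- The diamond-free fragment of `L` is finitely axiomatisable: for some finite set `A` of
diamond-free formulas it equals the set of diamond-free theorems of `CK_□ ⊕ A`. -/
def FragmentFinAx (L : Set Form) : Prop :=
  ∃ A : Set Form, A.Finite ∧ (∀ χ ∈ A, χ.DiaFree) ∧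
    ∀ φ : Form, φ.DiaFree → (φ ∈ L ↔ φ ∈ oplus CKBox A)

end Pool.Agent.H87.CKLogic
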