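import Pool.Agent.H87.CKLogic.Sem

namespace Pool.Agent.H87.CKLogic

open Form

namespace Pt

variable {k : ℕ}

/-- The valuation refuting `Theta k` at `x`: the variable `0` is true at `z` and all `w i`,
the variable `1` is true at all `w i`, the variable `i + 2` is true at `w i` only. -/
def Val : ℕ → Pt k → Prop
  | 0, z => True
  | 0, w _ => True
  | 1, w _ => True
  | n + 2, w j => n = j
  | _, _ => False

theorem val_persistent : Persistent (Val (k := k)) := by
  intro n p q hpq hp
  rcases n with _ | _ | n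
  · cases p <;> simp only [Val] at hp <;> cases q <;> simp_all [Val, le_iff, Le]
  · cases p <;> simp only [Val] at hp
    cases q <;> simp_all [Val, le_iff, Le]
  · cases p <;> simp only [Val] at hp
    cases q <;> simp_all [Val, le_iff, Le]

theorem rel_cases {p q : Pt k} (h : Rel p q) :
    (p = x ∧ q = z) ∨ ∃ i j, p = a i ∧ q = w j ∧ i ≠ j := by
  cases p <;> cases q <;> simp only [Rel] at h
  · exact Or.inl ⟨rfl, rfl⟩
  · exact Or.inr ⟨_, _, rfl, rfl, h⟩

theorem a_le {i : Fin k} {q : Pt k} (h : a i ≤ q) : q = a i := by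
  cases q <;> simp only [le_iff, Le] at h
  rw [h]

theorem w_le {i : Fin k} {q : Pt k} (h : w i ≤ q) : q = w i := by
  cases q <;> simp only [le_iff, Le] at h
  rw [h]

theorem le_x {q : Pt k} (h : q ≤ x) : q = x := by
  cases q <;> simp only [le_iff, Le] at h
  rfl

theorem not_y_le_x (h : (y : Pt k) ≤ x) : False := by
  simp [le_iff, Le] at h

theorem x_le_z (h : (x : Pt k) ≤ z) : False := by simp [le_iff, Le] at h

theorem x_le_w {i : Fin k} (h : (x : Pt k) ≤ w i) : False := by simp [le_iff, Le] at h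

/-- `Theta k` fails on `G_k`. -/
theorem theta_not_valid : Theta k ∉ Valid (Rel (k := k)) := by
  intro h
  have h0 := h Val val_persistent x x (le_refl _)
  clear h
  -- `□(p ∨ q)` holds at `x`
  have h1 : Force Rel Val (x (k := k)) (box (or (var 0) (var 1))) := by
    intro v hv u hu
    left
    rcases rel_cases hu with ⟨_, rfl⟩ | ⟨i, j, _, rfl, _⟩ <;> trivial
  have h0' := h0 h1 x (le_refl _)
  clear h0 h1
  -- `M_k → □q` holds at `x`
  have h2 : Force Rel Val (x (k := k)) (imp (Mform k) (box (var 1))) := by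
    intro v hv hM t ht u hu
    rcases rel_cases hu with ⟨rfl, rfl⟩ | ⟨i, j, _, rfl, _⟩
    swap
    · trivial
    exfalso
    -- then `t = x` and `v = x`, and we refute `M_k` at `y`
    have hvx := le_x ht
    subst hvx
    have h3 := hM y trivial (by
      intro t ht s hs r hr _
      rw [force_bigOr]
      rcases rel_cases hs with ⟨rfl, rfl⟩ | ⟨i, j, rfl, rfl, _⟩
      · exact absurd ht not_y_le_x
      · have := w_le hr
        subst this
        exact ⟨var ((j : ℕ) + 2), by simp, rfl⟩)
    rw [force_bigOr] at h3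
    obtain ⟨φ, hφ, h3⟩ := h3
    simp only [List.mem_map, List.mem_range] at hφ
    obtain ⟨i, hi, rfl⟩ := hφ
    refine h3 (a ⟨i, hi⟩) trivial ?_
    intro t ht s hs r hr h4
    have := a_le ht
    subst this
    rcases rel_cases hs with ⟨h5, _⟩ | ⟨i', j, h5, rfl, hij⟩
    · exact absurd h5 (by simp)
    · have := w_le hr
      subst this
      apply hij
      have h6 : i = (j : ℕ) := h4
      rw [← Pt.a.inj h5]
      exact Fin.ext h6
  exact h0' h2 x (le_refl _) z trivial

/-- `χ` is valid on `G_2`. -/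
theorem chi_valid : Chi ∈ Valid (Rel (k := 2)) := by
  intro V hV r v hv h1 u hu h2 t ht s hts
  by_contra hq
  -- `s` is not in `q`, so it is in `p`
  have hp : V 0 s := by
    rcases h1 t (hu.trans ht) s hts with h | h
    · exact h
    · exact absurd h hq
  rcases rel_cases hts with ⟨rfl, rfl⟩ | ⟨i, j, rfl, rfl, hij⟩
  · refine hq (h2 x ht ?_ x (le_refl _) z hts)
    intro t' ht' h3
    -- every point above `x` is below some `a i`
    have key : ∀ t' : Pt 2, (x : Pt 2) ≤ t' → ∃ t'' s' : Pt 2, t' ≤ t'' ∧ Rel t'' s' ∧ z ≤ s' := by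
      intro t' h
      cases t' with
      | x => exact ⟨x, z, le_refl _, trivial, le_refl _⟩
      | y => exact ⟨a 0, w 1, trivial, by simp [Rel], trivial⟩
      | a i =>
        refine ⟨a i, w (i + 1), le_refl _, ?_, trivial⟩
        fin_cases i <;> simp [Rel]
      | z => exact absurd h x_le_z
      | w j => exact absurd h x_le_w
    obtain ⟨t'', s', h4, h5, h6⟩ := key t' ht'
    exact h3 t'' h4 s' h5 s' (le_refl _) (hV 0 z s' h6 hp)
  · refine hq (h2 (a i) ht ?_ (a i) (le_refl _) (w j) hts)
    intro t' ht' h3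
    have := a_le ht'
    subst this
    exact h3 (a i) (le_refl _) (w j) hts (w j) (le_refl _) hp

end Pt

/-- `Theta 2` is not a theorem of `L₁`. -/
theorem theta_two_not_L1 : Theta 2 ∉ L1 := by
  intro h
  rw [L1_fragment _ (Theta_diaFree 2)] at h
  exact Pt.theta_not_valid
    (oplus_subset valid_isLogic CKBox_subset_valid (by rintro _ rfl; exact Pt.chi_valid) h)

/-! ### `L₂` is not finitely axiomatisable -/

/-- All variables of the formula are smaller than `m`. -/
def VarsLT (m : ℕ) : Form → Prop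
  | .var n => n < m
  | .bot => True
  | .and φ ψ => VarsLT m φ ∧ VarsLT m ψ
  | .or φ ψ => VarsLT m φ ∧ VarsLT m ψ
  | .imp φ ψ => VarsLT m φ ∧ VarsLT m ψ
  | .box φ => VarsLT m φ
  | .dia φ => VarsLT m φ

theorem VarsLT.mono {m m' : ℕ} (h : m ≤ m') {φ : Form} (hφ : VarsLT m φ) : VarsLT m' φ := by
  induction φ with
  | var n => exact lt_of_lt_of_le hφ h
  | bot => trivial
  | and φ ψ ih1 ih2 => exact ⟨ih1 hφ.1, ih2 hφ.2⟩
  | or φ ψ ih1 ih2 => exact ⟨ih1 hφ.1, ih2 hφ.2⟩
  | imp φ ψ ih1 ih2 => exact ⟨ih1 hφ.1, ih2 hφ.2⟩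
  | box φ ih => exact ih hφ
  | dia φ ih => exact ih hφ

theorem exists_varsLT (φ : Form) : ∃ m, VarsLT m φ := by
  induction φ with
  | var n => exact ⟨n + 1, Nat.lt_succ_self n⟩
  | bot => exact ⟨0, trivial⟩
  | and φ ψ ih1 ih2 =>
    obtain ⟨m1, h1⟩ := ih1
    obtain ⟨m2, h2⟩ := ih2
    exact ⟨max m1 m2, h1.mono (le_max_left _ _), h2.mono (le_max_right _ _)⟩
  | or φ ψ ih1 ih2 =>
    obtain ⟨m1, h1⟩ := ih1
    obtain ⟨m2, h2⟩ := ih2
    exact ⟨max m1 m2, h1.mono (le_max_left _ _), h2.mono (le_max_right _ _)⟩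
  | imp φ ψ ih1 ih2 =>
    obtain ⟨m1, h1⟩ := ih1
    obtain ⟨m2, h2⟩ := ih2
    exact ⟨max m1 m2, h1.mono (le_max_left _ _), h2.mono (le_max_right _ _)⟩
  | box φ ih => exact ih
  | dia φ ih => exact ih

namespace Pt

variable {k : ℕ}

/-- Points `w i`, `w j` with the same valuation force the same formulas. -/
theorem force_w_congr {m : ℕ} {V : ℕ → Pt k → Prop} {i j : Fin k}
    (hij : ∀ n < m, V n (w i) ↔ V n (w j)) (φ : Form) (hφ : VarsLT m φ) (hd : φ.DiaFree) :
    Force Rel V (w i) φ ↔ Force Rel V (w j) φ := by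
  induction φ with
  | var n => exact hij n hφ
  | bot => exact Iff.rfl
  | and φ ψ ih1 ih2 =>
    simp only [Force, ih1 hφ.1 hd.1, ih2 hφ.2 hd.2]
  | or φ ψ ih1 ih2 =>
    simp only [Force, ih1 hφ.1 hd.1, ih2 hφ.2 hd.2]
  | imp φ ψ ih1 ih2 =>
    have e : ∀ i : Fin k, Force Rel V (w i) (imp φ ψ) ↔
        (Force Rel V (w i) φ → Force Rel V (w i) ψ) := by
      intro i
      constructor
      · intro h; exact h (w i) (le_refl _)
      · intro h v hv
        rw [w_le hv]
        exact h
    have h1 := ih1 hφ.1 hd.1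
    have h2 := ih2 hφ.2 hd.2
    rw [e, e]
    tauto
  | box φ ih =>
    have e : ∀ i : Fin k, Force Rel V (w i) (box φ) := by
      intro i v hv u hu
      rw [w_le hv] at hu
      exact absurd hu (by cases u <;> simp [Rel])
    exact ⟨fun _ => e j, fun _ => e i⟩
  | dia φ ih => exact absurd hd id

/-- If `w b` and `w c` have the same valuation, `b ≠ c`, then `Rel` and `Rel' c` give the
same forcing of diamond-free formulas. -/
theorem force_rel_iff {m : ℕ} {V : ℕ → Pt k → Prop} {b c : Fin k} (hbc : b ≠ c)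
    (h : ∀ n < m, V n (w b) ↔ V n (w c)) (φ : Form) (hφ : VarsLT m φ)
    (hd : φ.DiaFree) (p : Pt k) :
    Force Rel V p φ ↔ Force (Rel' c) V p φ := by
  induction φ generalizing p with
  | var n => exact Iff.rfl
  | bot => exact Iff.rfl
  | and φ ψ ih1 ih2 =>
    simp only [Force, ih1 hφ.1 hd.1, ih2 hφ.2 hd.2]
  | or φ ψ ih1 ih2 =>
    simp only [Force, ih1 hφ.1 hd.1, ih2 hφ.2 hd.2]
  | imp φ ψ ih1 ih2 =>
    simp only [Force, ih1 hφ.1 hd.1, ih2 hφ.2 hd.2]
  | box φ ih =>
    have ih' := ih hφ hd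
    constructor
    · intro hp v hv u hu
      rw [← ih']
      cases v with
      | x =>
        cases u <;> simp only [Rel'] at hu
        exact hp x hv z trivial
      | y =>
        cases u <;> simp only [Rel'] at hu
        subst hu
        exact hp (a b) (hv.trans trivial) (w _) hbc
      | z => cases u <;> simp [Rel'] at hu
      | w j => cases u <;> simp [Rel'] at hu
      | a i =>
        cases u with
        | w j =>
          simp only [Rel'] at hu
          by_cases hij : i = j
          · have hjc : j = c := by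
              rcases hu with hu | hu
              · exact absurd hij hu
              · exact hu
            subst hjc
            subst hij
            rw [← force_w_congr h φ hφ hd]
            exact hp (a i) hv (w b) (by simpa [Rel] using hbc.symm)
          · exact hp (a i) hv (w j) hij
        | x => simp [Rel'] at hu
        | y => simp [Rel'] at hu
        | z => simp [Rel'] at hu
        | a j => simp [Rel'] at hu
    · intro hp v hv u hu
      rw [ih']
      refine hp v hv u ?_
      rcases rel_cases hu with ⟨rfl, rfl⟩ | ⟨i, j, rfl, rfl, hij⟩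
      · trivial
      · exact Or.inl hij
  | dia φ ih => exact absurd hd id

/-- Diamond-free theorems of `L₂` in fewer than `m` variables are valid on `G_k` for
`2 ^ m < k`. -/
theorem valid_of_L2 {m : ℕ} (hk : 2 ^ m < k) {φ : Form} (hφ : VarsLT m φ) (hd : φ.DiaFree)
    (h : φ ∈ L2) : φ ∈ Valid (Rel (k := k)) := by
  intro V hV p
  classical
  obtain ⟨b, c, hbc, heq⟩ := Fintype.exists_ne_map_eq_of_card_lt
    (fun (i : Fin k) (n : Fin m) => decide (V n (w i))) (by simpa using hk)
  have h1 : ∀ n < m, V n (w b) ↔ V n (w c) := by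
    intro n hn
    have := congrFun heq ⟨n, hn⟩
    simpa using this
  rw [force_rel_iff hbc h1 φ hφ hd]
  exact L2_subset_valid (rel'_fwdConf c) h V hV p

end Pt

theorem L1_finAx : FragmentFinAx L1 := by
  refine ⟨{Chi}, Set.finite_singleton _, ?_, L1_fragment⟩
  rintro _ rfl
  exact ⟨⟨trivial, trivial⟩, ⟨⟨⟨⟨trivial, trivial⟩, trivial⟩, trivial⟩, trivial⟩⟩

theorem L2_not_finAx : ¬ FragmentFinAx L2 := by
  rintro ⟨A, hA, hAd, hfrag⟩
  -- a bound for the variables
  obtain ⟨m, hm⟩ : ∃ m, ∀ χ ∈ A, VarsLT m χ := by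
    choose f hf using exists_varsLT
    obtain ⟨m, hm⟩ := (hA.image f).bddAbove
    exact ⟨m, fun χ hχ => (hf χ).mono (hm (Set.mem_image_of_mem f hχ))⟩
  have hAL : A ⊆ L2 := fun χ hχ => (hfrag χ (hAd χ hχ)).2 (mem_oplus_right hχ)
  have hk : 2 ^ m < 2 ^ m + 1 := Nat.lt_succ_self _
  have h1 : Theta (2 ^ m + 1) ∈ oplus CKBox A :=
    (hfrag _ (Theta_diaFree _)).1 (Theta_mem_L2 _)
  refine Pt.theta_not_valid (oplus_subset valid_isLogic CKBox_subset_valid ?_ h1)
  intro χ hχ
  exact Pt.valid_of_L2 hk (hm χ hχ) (hAd χ hχ) (hAL hχ)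

end Pool.Agent.H87.CKLogic
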