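import Pool.Agent.H87.CKLogic.Basic

namespace Pool.Agent.H87.CKLogic

open Form

/-! ### Birelational semantics -/

section Sem

variable {W : Type} [Preorder W] (R : W → W → Prop)

/-- Forcing over a preorder with an accessibility relation. -/
def Force (V : ℕ → W → Prop) : W → Form → Prop
  | w, .var n => V n w
  | _, .bot => False
  | w, .and φ ψ => Force V w φ ∧ Force V w ψ
  | w, .or φ ψ => Force V w φ ∨ Force V w ψ
  | w, .imp φ ψ => ∀ v, w ≤ v → Force V v φ → Force V v ψ
  | w, .box φ => ∀ v, w ≤ v → ∀ u, R v u → Force V u φ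
  | w, .dia φ => ∀ v, w ≤ v → ∃ u, R v u ∧ Force V u φ

/-- A valuation is persistent. -/
def Persistent (V : ℕ → W → Prop) : Prop := ∀ n w v, w ≤ v → V n w → V n v

/-- Validity on the frame `(W, ≤, R)`. -/
def Valid : Set Form := {φ | ∀ V : ℕ → W → Prop, Persistent V → ∀ w, Force R V w φ}

variable {R}

theorem force_mono {V : ℕ → W → Prop} (hV : Persistent V) (φ : Form) {w v : W} (h : w ≤ v)
    (hw : Force R V w φ) : Force R V v φ := by
  induction φ generalizing w v with
  | var n => exact hV n w v h hw
  | bot => exact hw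
  | and φ ψ ih1 ih2 => exact ⟨ih1 h hw.1, ih2 h hw.2⟩
  | or φ ψ ih1 ih2 => exact hw.imp (ih1 h) (ih2 h)
  | imp φ ψ ih1 ih2 => exact fun u hu => hw u (h.trans hu)
  | box φ ih => exact fun u hu => hw u (h.trans hu)
  | dia φ ih => exact fun u hu => hw u (h.trans hu)

theorem force_subst {V : ℕ → W → Prop} (σ : ℕ → Form) (φ : Form) (w : W) :
    Force R V w (φ.subst σ) ↔ Force R (fun n v => Force R V v (σ n)) w φ := by
  induction φ generalizing w with
  | var n => exact Iff.rfl
  | bot => exact Iff.rfl
  | and φ ψ ih1 ih2 => simp [Form.subst, Force, ih1, ih2]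
  | or φ ψ ih1 ih2 => simp [Form.subst, Force, ih1, ih2]
  | imp φ ψ ih1 ih2 => simp [Form.subst, Force, ih1, ih2]
  | box φ ih => simp [Form.subst, Force, ih]
  | dia φ ih => simp [Form.subst, Force, ih]

theorem valid_isLogic : IsLogic (Valid R) where
  ipl φ h := by
    intro V hV
    induction h with
    | k φ ψ =>
      intro w v hv h1 u hu _
      exact force_mono hV φ hu h1
    | s φ ψ χ =>
      intro w v hv h1 u hu h2 t ht h3
      exact h1 t (hu.trans ht) h3 t le_rfl (h2 t ht h3)
    | andL φ ψ => intro w v _ h; exact h.1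
    | andR φ ψ => intro w v _ h; exact h.2
    | andI φ ψ => intro w v _ h1 u hu h2; exact ⟨force_mono hV φ hu h1, h2⟩
    | orL φ ψ => intro w v _ h; exact Or.inl h
    | orR φ ψ => intro w v _ h; exact Or.inr h
    | orE φ ψ χ =>
      intro w v _ h1 u hu h2 t ht h3
      rcases h3 with h3 | h3
      · exact h1 t (hu.trans ht) h3
      · exact h2 t ht h3
    | botE φ => intro w v _ h; exact absurd h id
    | mp _ _ ih1 ih2 => intro w; exact ih1 w w le_rfl (ih2 w)
  mp φ ψ h1 h2 := fun V hV w => h1 V hV w w le_rfl (h2 V hV w)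
  nec φ h := fun V hV w v _ u _ => h V hV u
  subst φ σ h := by
    intro V hV w
    rw [force_subst]
    exact h _ (fun n w v hwv hw => force_mono hV (σ n) hwv hw) w
  kbox := by
    intro V hV w v hv h1 u hu h2 t ht s hts
    exact h1 t (hu.trans ht) s hts s le_rfl (h2 t ht s hts)

theorem CKBox_subset_valid : CKBox ⊆ Valid R := by
  apply oplus_subset valid_isLogic
  · intro φ h; exact valid_isLogic.ipl φ h
  · rintro _ rfl; exact valid_isLogic.kbox

/-- Forward confluence. -/
def FwdConf (R : W → W → Prop) : Prop := ∀ x y z, x ≤ y → R x z → ∃ u, R y u ∧ z ≤ u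

theorem L2_subset_valid (hR : FwdConf R) : L2 ⊆ Valid R := by
  have hval := valid_isLogic (R := R)
  apply oplus_subset hval
  · apply oplus_subset hval
    · apply oplus_subset hval
      · apply oplus_subset hval
        · exact CKBox_subset_valid
        · rintro _ rfl
          intro V hV w v hv h1 u hu h2 t ht
          obtain ⟨s, hts, hs⟩ := h2 t ht
          exact ⟨s, hts, h1 t (hu.trans ht) s hts s le_rfl hs⟩
      · rintro _ rfl
        intro V hV w v hv h1
        obtain ⟨s, _, hs⟩ := h1 v le_rfl
        exact hs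
    · rintro _ rfl
      intro V hV w v hv h1 u hu h2 t ht s hts
      rcases h1 t (hu.trans ht) s hts with h | h
      · refine h2 t ht ?_ t le_rfl s hts
        intro r hr
        obtain ⟨q, hrq, hsq⟩ := hR t r s hr hts
        exact ⟨q, hrq, force_mono hV _ hsq h⟩
      · exact h
  · rintro _ rfl
    intro V hV w v hv h1
    obtain ⟨s, hvs, hs⟩ := h1 v le_rfl
    rcases hs with hs | hs
    · left
      intro r hr
      obtain ⟨q, hrq, hsq⟩ := hR v r s hr hvs
      exact ⟨q, hrq, force_mono hV _ hsq hs⟩
    · right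
      intro r hr
      obtain ⟨q, hrq, hsq⟩ := hR v r s hr hvs
      exact ⟨q, hrq, force_mono hV _ hsq hs⟩

theorem force_bigOr {V : ℕ → W → Prop} (l : List Form) (w : W) :
    Force R V w (bigOr l) ↔ ∃ φ ∈ l, Force R V w φ := by
  induction l with
  | nil => simp [bigOr, Force]
  | cons a l ih => simp [bigOr, Force, ih]

end Sem

/-! ### The frames `G_k` -/

/-- Points of the frame `G_k`: a root `x`, a point `y` above it, `k` points `a i` above `y`,
a point `z`, and `k` points `w i` above `z`. -/
inductive Pt (k : ℕ) : Type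
  | x : Pt k
  | y : Pt k
  | a : Fin k → Pt k
  | z : Pt k
  | w : Fin k → Pt k

namespace Pt

variable {k : ℕ}

/-- The order of `G_k`. -/
def Le : Pt k → Pt k → Prop
  | x, x => True
  | x, y => True
  | x, a _ => True
  | y, y => True
  | y, a _ => True
  | a i, a j => i = j
  | z, z => True
  | z, w _ => True
  | w i, w j => i = j
  | _, _ => False

instance : Preorder (Pt k) where
  le := Le
  le_refl p := by cases p <;> simp [Le]
  le_trans p q r := by
    cases p <;> cases q <;> cases r <;> simp only [Le] <;> grind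

theorem le_iff (p q : Pt k) : p ≤ q ↔ Le p q := Iff.rfl

/-- The accessibility relation of `G_k`. -/
def Rel : Pt k → Pt k → Prop
  | x, z => True
  | a i, w j => i ≠ j
  | _, _ => False

/-- The modified accessibility relation: `y` and all the `a i` also see `w c`. -/
def Rel' (c : Fin k) : Pt k → Pt k → Prop
  | x, z => True
  | y, w j => j = c
  | a i, w j => i ≠ j ∨ j = c
  | _, _ => False

theorem rel'_fwdConf (c : Fin k) : FwdConf (Rel' c) := by
  intro p q r hpq hpr
  cases p <;> cases r <;> simp only [Rel'] at hpr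
  · -- x sees z
    cases q <;> simp only [le_iff, Le] at hpq
    · exact ⟨z, trivial, le_refl _⟩
    · exact ⟨w c, rfl, trivial⟩
    · exact ⟨w c, Or.inr rfl, trivial⟩
  · -- y sees w c
    subst hpr
    cases q <;> simp only [le_iff, Le] at hpq
    · exact ⟨w _, rfl, le_refl _⟩
    · exact ⟨w _, Or.inr rfl, le_refl _⟩
  · cases q <;> simp only [le_iff, Le] at hpq
    subst hpq
    exact ⟨w _, hpr, le_refl _⟩

end Pt

end Pool.Agent.H87.CKLogic
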